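import Mathlib
import Pool.Agent.Helper941.Dim.Base

/-!
A computable copy of the algebra of finite and cofinite sets of natural numbers in which the
set of the finite elements is not computable. The copy is generated by the intervals
`[s, v)`, where `v` is the least stage after `s` with `a v < a s`, for an enumeration `a`
related to the halting problem (`[s, ∞)` if there is no such `v`, that is, if `s` is a true stage).
-/

set_option autoImplicit false

namespace Pool.Agent.TH743.BA

open Encodable Denumerable Nat.Partrec Pool.Agent.Helper941.IsoProb Pool.Agent.Helper941.Zeta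
open Pool.Agent.Helper941.Dim

/-- `x` is put into the halting problem exactly at the stage `t` -/
def Hit (x t : ℕ) : Prop :=
  haltsIn (ofNat Code x) 0 (t + 1) = true ∧ haltsIn (ofNat Code x) 0 t = false

instance (x t : ℕ) : Decidable (Hit x t) := by unfold Hit; infer_instance

/-- the enumeration -/
def a (s : ℕ) : ℕ := if Hit s.unpair.1 s.unpair.2 then s.unpair.1 else s

theorem hit_unique {x t t' : ℕ} (h : Hit x t) (h' : Hit x t') : t = t' := by
  rcases lt_trichotomy t t' with h1 | h1 | h1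
  · have := haltsIn_mono (ofNat Code x) 0 (show t + 1 ≤ t' by omega) h.1
    rw [h'.2] at this
    exact Bool.noConfusion this
  · exact h1
  · have := haltsIn_mono (ofNat Code x) 0 (show t' + 1 ≤ t by omega) h'.1
    rw [h.2] at this
    exact Bool.noConfusion this

theorem haltsIn_zero (c : Code) (x : ℕ) : haltsIn c x 0 = false := by
  unfold haltsIn
  simp [Code.evaln]

theorem exists_hit {x s : ℕ} (h : haltsIn (ofNat Code x) 0 s = true) : ∃ t < s, Hit x t := by
  induction s with
  | zero => rw [haltsIn_zero] at h; exact Bool.noConfusion h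
  | succ s ih =>
    by_cases h1 : haltsIn (ofNat Code x) 0 s = true
    · obtain ⟨t, ht, h2⟩ := ih h1
      exact ⟨t, by omega, h2⟩
    · exact ⟨s, by omega, h, by simpa using h1⟩

theorem a_zero : a 0 = 0 := by
  unfold a
  rw [Pool.Agent.Helper941.Dim.unpair_zero']
  simp

theorem a_pair {x t : ℕ} (h : Hit x t) : a (Nat.pair x t) = x := by
  unfold a
  rw [Nat.unpair_pair, if_pos h]

/-- the values of `a` tend to infinity -/
theorem a_large (n : ℕ) : ∃ N, ∀ s, N ≤ s → n < a s := by
  have h1 : ∀ x, ∃ T, ∀ t, Hit x t → t < T := by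
    intro x
    by_cases h : ∃ t, Hit x t
    · obtain ⟨t, ht⟩ := h
      exact ⟨t + 1, fun t' ht' => by rw [hit_unique ht' ht]; omega⟩
    · exact ⟨0, fun t ht => (h ⟨t, ht⟩).elim⟩
  choose T hT using h1
  refine ⟨n + 1 + ∑ x ∈ Finset.range (n + 1), Nat.pair x (T x), fun s hs => ?_⟩
  by_contra hc
  have hc' : a s ≤ n := by omega
  by_cases h : Hit s.unpair.1 s.unpair.2
  · have h2 : a s = s.unpair.1 := if_pos h
    have h3 := hT _ _ h
    have h4 : Nat.pair s.unpair.1 (T s.unpair.1) ≤
        ∑ x ∈ Finset.range (n + 1), Nat.pair x (T x) :=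
      Finset.single_le_sum (f := fun x => Nat.pair x (T x)) (fun _ _ => Nat.zero_le _)
        (Finset.mem_range.2 (by omega))
    have h5 : Nat.pair s.unpair.1 s.unpair.2 < Nat.pair s.unpair.1 (T s.unpair.1) :=
      Nat.pair_lt_pair_right _ h3
    rw [Nat.pair_unpair] at h5
    omega
  · have h2 : a s = s := if_neg h
    omega

/-- the cone of `s`: an interval starting with `s` -/
def Cn (s u : ℕ) : Prop := s ≤ u ∧ ∀ v < u + 1, s < v → a s ≤ a v

instance (s u : ℕ) : Decidable (Cn s u) := by unfold Cn; infer_instance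

/-- the true stages -/
def TS (s : ℕ) : Prop := ∀ v, s < v → a s ≤ a v

theorem cn_self (s : ℕ) : Cn s s := ⟨le_refl s, fun v hv h => by omega⟩

theorem cn_zero (u : ℕ) : Cn 0 u := ⟨Nat.zero_le u, fun v _ _ => by rw [a_zero]; omega⟩

theorem cn_inter {s t u : ℕ} (h : s ≤ t) : (Cn s u ∧ Cn t u) ↔ (Cn s t ∧ Cn t u) := by
  constructor
  · rintro ⟨h1, h2⟩
    exact ⟨⟨h, fun v hv hs => h1.2 v (by have := h2.1; omega) hs⟩, h2⟩
  · rintro ⟨h1, h2⟩
    refine ⟨⟨h1.1.trans h2.1, fun v hv hs => ?_⟩, h2⟩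
    by_cases h3 : v < t + 1
    · exact h1.2 v h3 hs
    · have h4 := h2.2 v hv (by omega)
      have h5 : a s ≤ a t := by
        rcases h.lt_or_eq with h6 | h6
        · exact h1.2 t (by omega) h6
        · rw [h6]
      omega

theorem cn_ts {s u : ℕ} (h : TS s) : Cn s u ↔ s ≤ u :=
  ⟨fun h => h.1, fun h1 => ⟨h1, fun v _ hv => h v hv⟩⟩

theorem exists_next {s : ℕ} (h : ¬ TS s) : ∃ v, s < v ∧ a v < a s ∧ ∀ u, Cn s u ↔ s ≤ u ∧ u < v := by
  classical
  have h1 : ∃ v, s < v ∧ a v < a s := by
    unfold TS at h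
    push Not at h
    exact h
  refine ⟨Nat.find h1, (Nat.find_spec h1).1, (Nat.find_spec h1).2, fun u => ?_⟩
  constructor
  · intro h2
    refine ⟨h2.1, ?_⟩
    by_contra hc
    have h3 := h2.2 (Nat.find h1) (by omega) (Nat.find_spec h1).1
    have h4 := (Nat.find_spec h1).2
    omega
  · rintro ⟨h2, h3⟩
    refine ⟨h2, fun v hv hs => ?_⟩
    by_contra hc
    exact Nat.find_min h1 (m := v) (by omega) ⟨hs, by omega⟩

theorem cn_large (s : ℕ) : ∃ N, ∀ u, N ≤ u → (Cn s u ↔ TS s) := by
  by_cases h : TS s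
  · exact ⟨s, fun u hu => by rw [cn_ts h]; exact ⟨fun _ => h, fun _ => hu⟩⟩
  · obtain ⟨v, _, _, h3⟩ := exists_next h
    refine ⟨v, fun u hu => ?_⟩
    rw [h3]
    constructor
    · rintro ⟨_, h5⟩
      omega
    · intro h4
      exact (h h4).elim

/-- there are true stages with large values -/
theorem exists_ts (n : ℕ) : ∃ s, TS s ∧ n < a s := by
  classical
  obtain ⟨N, hN⟩ := a_large n
  have h1 : ∃ m, ∃ s, N ≤ s ∧ a s = m := ⟨a N, N, le_refl _, rfl⟩
  obtain ⟨s, hs, h2⟩ := Nat.find_spec h1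
  refine ⟨s, fun v hv => ?_, hN s hs⟩
  by_contra hc
  exact Nat.find_min h1 (m := a v) (by omega) ⟨v, by omega, rfl⟩

/-! ### the elements -/

/-- the characteristic function of the set coded by `n` -/
def f (n u : ℕ) : ZMod 2 := ∑ i ∈ Finset.range n, if n.testBit i = true ∧ Cn i u then 1 else 0

theorem f_eq {n N : ℕ} (h : n ≤ N) (u : ℕ) :
    f n u = ∑ i ∈ Finset.range N, if n.testBit i = true ∧ Cn i u then 1 else 0 := by
  unfold f
  refine Finset.sum_subset (Finset.range_subset_range.2 h) fun i _ hi => ?_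
  have h1 : n ≤ i := by simpa using hi
  rw [testBit_large h1]
  simp

theorem f_xor (n m u : ℕ) : f (n ^^^ m) u = f n u + f m u := by
  rw [f_eq (show n ^^^ m ≤ (n ^^^ m) + n + m by omega), f_eq (show n ≤ (n ^^^ m) + n + m by omega),
    f_eq (show m ≤ (n ^^^ m) + n + m by omega), ← Finset.sum_add_distrib]
  refine Finset.sum_congr rfl fun i _ => ?_
  rw [Nat.testBit_xor]
  by_cases h : Cn i u
  · cases n.testBit i <;> cases m.testBit i <;> simp [h] <;> decide
  · simp [h]

theorem f_two_pow (k u : ℕ) : f (2 ^ k) u = if Cn k u then 1 else 0 := by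
  unfold f
  rw [Finset.sum_eq_single k]
  · simp
  · intro b _ hb
    rw [Nat.testBit_two_pow]
    have : ¬ k = b := fun h => hb h.symm
    simp [this]
  · intro h
    exfalso
    exact h (Finset.mem_range.2 Nat.lt_two_pow_self)

theorem f_zero (u : ℕ) : f 0 u = 0 := by simp [f]

theorem f_one (u : ℕ) : f 1 u = 1 := by
  have := f_two_pow 0 u
  rw [pow_zero, if_pos (cn_zero u)] at this
  exact this

theorem zmod2 (x : ZMod 2) : x = 0 ∨ x = 1 := by
  revert x
  decide

/-- the set coded by `n` -/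
def S (n : ℕ) : Set ℕ := {u | f n u = 1}

theorem S_inj {n m : ℕ} (h : S n = S m) : n = m := by
  classical
  have h1 : ∀ u, f (n ^^^ m) u = 0 := by
    intro u
    have h2 : f n u = 1 ↔ f m u = 1 := by
      have := Set.ext_iff.1 h u
      exact this
    rw [f_xor]
    rcases zmod2 (f n u) with h3 | h3 <;> rcases zmod2 (f m u) with h4 | h4
    · rw [h3, h4]; rfl
    · rw [h3, h4] at h2; simp at h2
    · rw [h3, h4] at h2; simp at h2
    · rw [h3, h4]; rfl
  have h5 : n ^^^ m = 0 := by
    by_contra hc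
    have h6 : ∃ i, (n ^^^ m).testBit i = true := by
      by_contra h7
      push Not at h7
      exact hc (eq_zero_of fun u => by simpa using h7 u)
    have h7 := h1 (Nat.find h6)
    rw [f_eq (le_refl _), Finset.sum_eq_single (Nat.find h6)] at h7
    · rw [if_pos ⟨Nat.find_spec h6, cn_self _⟩] at h7
      exact one_ne_zero h7
    · intro b _ hb
      rw [if_neg]
      rintro ⟨h8, h9⟩
      have h10 := Nat.find_min' h6 h8
      have := h9.1
      omega
    · intro h8
      exact (h8 (Finset.mem_range.2 (testBit_lt (Nat.find_spec h6)))).elim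
  have h8 : n ^^^ m ^^^ m = 0 ^^^ m := by rw [h5]
  rw [Nat.xor_assoc, Nat.xor_self, Nat.xor_zero, Nat.zero_xor] at h8
  exact h8

/-- eventually constant -/
theorem f_large (n : ℕ) : ∃ N, ∃ b : ZMod 2, ∀ u, N ≤ u → f n u = b := by
  classical
  choose N hN using cn_large
  refine ⟨∑ i ∈ Finset.range n, N i,
    ∑ i ∈ Finset.range n, if n.testBit i = true ∧ TS i then 1 else 0, fun u hu => ?_⟩
  unfold f
  refine Finset.sum_congr rfl fun i hi => ?_
  have h1 : N i ≤ ∑ i ∈ Finset.range n, N i :=
    Finset.single_le_sum (f := fun i => N i) (fun _ _ => Nat.zero_le _) hi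
  have h2 := hN i u (by omega)
  simp only [h2]

/-- the algebra of finite and cofinite sets -/
def FC : BooleanSubalgebra (Set ℕ) where
  carrier := {X | X.Finite ∨ Xᶜ.Finite}
  supClosed' := by
    rintro X hX Y hY
    rcases hX with h1 | h1
    · rcases hY with h2 | h2
      · exact Or.inl (h1.union h2)
      · refine Or.inr (h2.subset ?_)
        simp
    · refine Or.inr (h1.subset ?_)
      simp
  infClosed' := by
    rintro X hX Y hY
    rcases hX with h1 | h1
    · exact Or.inl (h1.subset Set.inter_subset_left)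
    · rcases hY with h2 | h2
      · exact Or.inl (h2.subset Set.inter_subset_right)
      · refine Or.inr ((h1.union h2).subset ?_)
        simp [Set.compl_inter]
  compl_mem' := by
    rintro X (h | h)
    · exact Or.inr (by simpa using h)
    · exact Or.inl h
  bot_mem' := Or.inl Set.finite_empty

theorem mem_FC {X : Set ℕ} : X ∈ FC ↔ X.Finite ∨ Xᶜ.Finite := Iff.rfl

theorem S_mem (n : ℕ) : S n ∈ FC := by
  obtain ⟨N, b, h⟩ := f_large n
  rcases zmod2 b with hb | hb
  · refine Or.inl ((Set.finite_lt_nat N).subset fun u hu => ?_)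
    by_contra hc
    have h1 : f n u = 1 := hu
    rw [h u (by simpa using hc), hb] at h1
    exact zero_ne_one h1
  · refine Or.inr ((Set.finite_lt_nat N).subset fun u hu => ?_)
    by_contra hc
    exact hu (show f n u = 1 by rw [h u (by simpa using hc), hb])

theorem mem_S {n u : ℕ} : u ∈ S n ↔ f n u = 1 := Iff.rfl

theorem mem_S_xor {n m u : ℕ} : u ∈ S (n ^^^ m) ↔ ¬ (u ∈ S n ↔ u ∈ S m) := by
  rw [mem_S, mem_S, mem_S, f_xor]
  generalize f n u = x
  generalize f m u = y
  revert x y
  decide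

theorem mem_S_two_pow {k u : ℕ} : u ∈ S (2 ^ k) ↔ Cn k u := by
  rw [mem_S, f_two_pow]
  by_cases h : Cn k u <;> simp [h]

theorem rep_Ici (m : ℕ) : ∀ s, a s ≤ m → ∃ n, ∀ u, u ∈ S n ↔ s ≤ u := by
  induction m using Nat.strong_induction_on with
  | _ m ih =>
    intro s hs
    by_cases h : TS s
    · exact ⟨2 ^ s, fun u => by rw [mem_S_two_pow, cn_ts h]⟩
    · obtain ⟨v, h1, h2, h3⟩ := exists_next h
      obtain ⟨n, hn⟩ := ih (a v) (by omega) v (le_refl _)
      refine ⟨2 ^ s ^^^ n, fun u => ?_⟩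
      rw [mem_S_xor, mem_S_two_pow, h3, hn]
      omega

theorem rep_finite {X : Set ℕ} (hX : X.Finite) : ∃ n, S n = X := by
  induction X, hX using Set.Finite.induction_on with
  | empty => exact ⟨0, by ext u; simp [mem_S, f_zero]⟩
  | @insert x Y hx _ ih =>
    obtain ⟨n, hn⟩ := ih
    obtain ⟨k, hk⟩ := rep_Ici _ x (le_refl _)
    obtain ⟨l, hl⟩ := rep_Ici _ (x + 1) (le_refl _)
    refine ⟨n ^^^ (k ^^^ l), ?_⟩
    ext u
    rw [mem_S_xor, mem_S_xor, hk, hl, hn, Set.mem_insert_iff]
    by_cases h : u = x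
    · subst h
      simp [hx]
    · have : (x ≤ u ↔ x + 1 ≤ u) := by omega
      simp [h, this]

theorem mem_S_compl {n u : ℕ} : u ∈ S (n ^^^ 1) ↔ u ∉ S n := by
  rw [mem_S_xor]
  have : u ∈ S 1 := f_one u
  simp [this]

theorem rep {X : Set ℕ} (hX : X ∈ FC) : ∃ n, S n = X := by
  rcases hX with h | h
  · exact rep_finite h
  · obtain ⟨n, hn⟩ := rep_finite h
    refine ⟨n ^^^ 1, ?_⟩
    ext u
    rw [mem_S_compl, hn]
    simp

/-- the numbering of the algebra -/
noncomputable def e : ℕ ≃ FC :=
  Equiv.ofBijective (fun n => (⟨S n, S_mem n⟩ : FC))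
    ⟨fun n m h => S_inj (Subtype.ext_iff.1 h), fun X => by
      obtain ⟨n, hn⟩ := rep X.2
      exact ⟨n, Subtype.ext hn⟩⟩

theorem e_val (n : ℕ) : ((e n : FC) : Set ℕ) = S n := rfl

/-! ### the operations -/

/-- iterated `xor` -/
def xs (g : ℕ → ℕ) : ℕ → ℕ
  | 0 => 0
  | k + 1 => xs g k ^^^ g k

theorem f_xs (g : ℕ → ℕ) (k u : ℕ) : f (xs g k) u = ∑ i ∈ Finset.range k, f (g i) u := by
  induction k with
  | zero => simp [xs, f_zero]
  | succ k ih => rw [Finset.sum_range_succ, ← ih]; exact f_xor _ _ _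

theorem c_xs {α : Type} [Primcodable α] {g : α → ℕ → ℕ} {k : α → ℕ}
    (hg : Computable fun p : α × ℕ => g p.1 p.2) (hk : Computable k) :
    Computable fun x => xs (g x) (k x) := by
  have h : Computable fun x => (Nat.rec 0 (fun i r => r ^^^ g x i) (k x) : ℕ) := by
    refine Computable.nat_rec (f := k) (g := fun _ => 0)
      (h := fun (x : α) (q : ℕ × ℕ) => q.2 ^^^ g x q.1) hk (Computable.const 0) ?_
    exact c_xor (c_snd (c_snd c_id)) (hg.comp (c_pair (c_fst c_id) (c_fst (c_snd c_id))))
  refine h.of_eq fun x => ?_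
  induction k x with
  | zero => rfl
  | succ n ih => show _ ^^^ _ = _ ^^^ _; rw [← ih]

theorem p_hit {α : Type} [Primcodable α] {x t : α → ℕ} (hx : Computable x) (ht : Computable t) :
    ComputablePred fun y => Hit (x y) (t y) := by
  have h1 : Computable₂ fun (x t : ℕ) => haltsIn (ofNat Code x) 0 t := by
    have := primrec_haltsIn (α := ℕ × ℕ) (f := fun p => ofNat Code p.1) (g := fun _ => 0)
      (h := fun p => p.2) ((Primrec.ofNat Code).comp Primrec.fst) (Primrec.const 0) Primrec.snd
    exact this.to_comp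
  exact p_and (p_eqb (h1.comp hx (c_succ ht)) (c_const true))
    (p_eqb (h1.comp hx ht) (c_const false))

theorem c_a : Computable a := by
  unfold a
  exact c_ite (p_hit (c_up1 c_id) (c_up2 c_id)) (c_up1 c_id) c_id

theorem p_cn {α : Type} [Primcodable α] {x t : α → ℕ} (hx : Computable x) (ht : Computable t) :
    ComputablePred fun y => Cn (x y) (t y) := by
  refine p_and (p_le hx ht) (p_ball (f := fun y => t y + 1)
    (P := fun y v => x y < v → a (x y) ≤ a v) (c_succ ht) ?_)
  exact p_imp (p_lt (hx.comp (c_fst c_id)) (c_snd c_id))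
    (p_le (c_a.comp (hx.comp (c_fst c_id))) (c_a.comp (c_snd c_id)))

/-- the product of two generators -/
def mm (i j : ℕ) : ℕ := if Cn (min i j) (max i j) then 2 ^ max i j else 0

theorem f_mm (i j u : ℕ) :
    f (mm i j) u = (if Cn i u then 1 else 0) * (if Cn j u then 1 else 0) := by
  unfold mm
  rcases le_total i j with h | h
  · rw [min_eq_left h, max_eq_right h]
    have h1 := cn_inter (u := u) h
    by_cases h2 : Cn i j
    · rw [if_pos h2, f_two_pow]
      by_cases h3 : Cn j u
      · have h4 := (h1.2 ⟨h2, h3⟩).1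
        simp [h3, h4]
      · simp [h3]
    · rw [if_neg h2, f_zero]
      by_cases h3 : Cn j u
      · have h4 : ¬ Cn i u := fun h4 => h2 (h1.1 ⟨h4, h3⟩).1
        simp [h4]
      · simp [h3]
  · rw [min_eq_right h, max_eq_left h]
    have h1 := cn_inter (u := u) h
    by_cases h2 : Cn j i
    · rw [if_pos h2, f_two_pow]
      by_cases h3 : Cn i u
      · have h4 := (h1.2 ⟨h2, h3⟩).1
        simp [h3, h4]
      · simp [h3]
    · rw [if_neg h2, f_zero]
      by_cases h3 : Cn i u
      · have h4 : ¬ Cn j u := fun h4 => h2 (h1.1 ⟨h4, h3⟩).1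
        simp [h4]
      · simp [h3]

/-- the meet -/
def mul (n m : ℕ) : ℕ :=
  xs (fun i => xs (fun j => if n.testBit i = true ∧ m.testBit j = true then mm i j else 0) m) n

theorem f_mul (n m u : ℕ) : f (mul n m) u = f n u * f m u := by
  unfold mul
  rw [f_xs]
  simp only [f_xs]
  unfold f
  rw [Finset.sum_mul_sum]
  refine Finset.sum_congr rfl fun i _ => Finset.sum_congr rfl fun j _ => ?_
  have h := f_mm i j u
  by_cases h1 : n.testBit i = true
  · by_cases h2 : m.testBit j = true
    · rw [if_pos ⟨h1, h2⟩]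
      simp only [h1, h2, true_and]
      exact h
    · rw [if_neg (fun h => h2 h.2)]
      simp [h2]
  · rw [if_neg (fun h => h1 h.1)]
    simp [h1]

theorem c_mm {α : Type} [Primcodable α] {x y : α → ℕ} (hx : Computable x) (hy : Computable y) :
    Computable fun z => mm (x z) (y z) := by
  unfold mm
  have h1 : Computable fun z => min (x z) (y z) := (Primrec.nat_min.to_comp).comp hx hy
  have h2 : Computable fun z => max (x z) (y z) := c_max hx hy
  exact c_ite (p_cn h1 h2) (c_pow h2) (c_const 0)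

theorem c_mul' {α : Type} [Primcodable α] {x y : α → ℕ} (hx : Computable x) (hy : Computable y) :
    Computable fun z => mul (x z) (y z) := by
  unfold mul
  refine c_xs (g := fun z i => xs (fun j => if (x z).testBit i = true ∧ (y z).testBit j = true
    then mm i j else 0) (y z)) ?_ hx
  refine c_xs (α := α × ℕ) (g := fun z j => if (x z.1).testBit z.2 = true ∧
    (y z.1).testBit j = true then mm z.2 j else 0) ?_ (hy.comp (c_fst c_id))
  refine c_ite (p_and (p_testBit (hx.comp (c_fst (c_fst c_id))) (c_snd (c_fst c_id)))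
    (p_testBit (hy.comp (c_fst (c_fst c_id))) (c_snd c_id))) ?_ (c_const 0)
  exact c_mm (x := fun z : (α × ℕ) × ℕ => z.1.2) (y := fun z : (α × ℕ) × ℕ => z.2)
    (c_snd (c_fst c_id)) (c_snd c_id)

theorem e_compl (n : ℕ) : e.symm (e n)ᶜ = n ^^^ 1 := by
  rw [Equiv.symm_apply_eq]
  refine Subtype.ext (Set.ext fun u => ?_)
  rw [e_val]
  show u ∉ S n ↔ _
  rw [mem_S_compl]

theorem e_inf (m n : ℕ) : e.symm (e m ⊓ e n) = mul m n := by
  rw [Equiv.symm_apply_eq]
  refine Subtype.ext (Set.ext fun u => ?_)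
  rw [e_val]
  show (u ∈ S m ∧ u ∈ S n) ↔ _
  rw [mem_S, mem_S, mem_S, f_mul]
  generalize f m u = x
  generalize f n u = y
  revert x y
  decide

theorem e_sup (m n : ℕ) : e.symm (e m ⊔ e n) = m ^^^ n ^^^ mul m n := by
  rw [Equiv.symm_apply_eq]
  refine Subtype.ext (Set.ext fun u => ?_)
  rw [e_val]
  show (u ∈ S m ∨ u ∈ S n) ↔ _
  rw [mem_S, mem_S, mem_S, f_xor, f_xor, f_mul]
  generalize f m u = x
  generalize f n u = y
  revert x y
  decide

theorem comp_sup : Computable₂ (fun m n : ℕ => e.symm (e m ⊔ e n)) := by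
  have : Computable fun p : ℕ × ℕ => p.1 ^^^ p.2 ^^^ mul p.1 p.2 :=
    c_xor (c_xor (c_fst c_id) (c_snd c_id)) (c_mul' (c_fst c_id) (c_snd c_id))
  exact this.of_eq fun p => (e_sup p.1 p.2).symm

theorem comp_inf : Computable₂ (fun m n : ℕ => e.symm (e m ⊓ e n)) := by
  have : Computable fun p : ℕ × ℕ => mul p.1 p.2 := c_mul' (c_fst c_id) (c_snd c_id)
  exact this.of_eq fun p => (e_inf p.1 p.2).symm

theorem comp_compl : Computable (fun n : ℕ => e.symm (e n)ᶜ) := by
  have : Computable fun n : ℕ => n ^^^ 1 := c_xor c_id (c_const 1)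
  exact this.of_eq fun n => (e_compl n).symm

/-- the least true stage with a value above `x` -/
noncomputable def tsb (x : ℕ) : ℕ := sInf {t | TS t ∧ x < a t}

theorem tsb_spec (x : ℕ) : TS (tsb x) ∧ x < a (tsb x) :=
  Nat.sInf_mem (s := {t | TS t ∧ x < a t}) (exists_ts _)

theorem c_tsb (h : ComputablePred TS) : Computable tsb := by
  refine c_least (P := fun x t => TS t ∧ x < a t) ?_ fun x => exists_ts x
  exact p_and (computablePred_comp h (c_snd c_id)) (p_lt (c_fst c_id) (c_a.comp (c_snd c_id)))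

theorem halts_iff_tsb (x : ℕ) : (∃ s < tsb x + 1, s.unpair.1 = x ∧ Hit x s.unpair.2) ↔
    ∃ s, haltsIn (ofNat Code x) 0 s = true := by
  constructor
  · rintro ⟨s, _, _, h4⟩
    exact ⟨_, h4.1⟩
  · rintro ⟨s, hs⟩
    obtain ⟨t, _, ht⟩ := exists_hit hs
    refine ⟨Nat.pair x t, ?_, by rw [Nat.unpair_pair], by rw [Nat.unpair_pair]; exact ht⟩
    have h4 := tsb_spec x
    by_contra hc
    have h5 := h4.1 (Nat.pair x t) (by omega)
    rw [a_pair ht] at h5
    omega

/-- the true stages are not computable -/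
theorem not_comp_ts : ¬ ComputablePred TS := by
  intro h
  apply ComputablePred.halting_problem 0
  have h2 : ComputablePred fun x : ℕ => ∃ s < tsb x + 1, s.unpair.1 = x ∧ Hit x s.unpair.2 :=
    p_bex (c_succ (c_tsb h)) (p_and (p_eq (c_up1 (c_snd c_id)) (c_fst c_id))
      (p_hit (c_fst c_id) (c_up2 (c_snd c_id))))
  have h3 : ComputablePred fun c : Code => ∃ s < tsb (encode c) + 1,
      s.unpair.1 = encode c ∧ Hit (encode c) s.unpair.2 :=
    computablePred_comp h2 (f := fun c : Code => encode c) Computable.encode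
  refine h3.of_eq fun c => ?_
  rw [haltsIn_iff, halts_iff_tsb, ofNat_encode]

end Pool.Agent.TH743.BA
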