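import Mathlib
import Pool.Agent.TH743.BA

set_option autoImplicit false

namespace Pool.Agent.TH743.BA

open Encodable Denumerable Nat.Partrec Pool.Agent.Helper941.IsoProb Pool.Agent.Helper941.Zeta
open Pool.Agent.Helper941.Dim

/-- the sets of the interval algebra of `ω` -/
def R : Set (Set ℕ) := {X : Set ℕ | ∃ S : Finset ℕ, ∃ b : Bool,
  X = {x : ℕ | Xor' (b = true) (Odd (S.filter (fun s => s ≤ x)).card)}}

theorem const_mem {X : Set ℕ} {N : ℕ} {p : Prop} (h : ∀ x, N ≤ x → (x ∈ X ↔ p)) :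
    (X.Finite ∨ Xᶜ.Finite) ∧ (X.Infinite ↔ p) := by
  by_cases hp : p
  · have h1 : Xᶜ.Finite := (Set.finite_lt_nat N).subset fun x hx => by
      by_contra hc
      exact hx ((h x (by simpa using hc)).2 hp)
    refine ⟨Or.inr h1, ?_⟩
    simp only [hp, iff_true]
    intro h2
    have := h1.union h2
    rw [Set.compl_union_self] at this
    exact Set.infinite_univ this
  · have h1 : X.Finite := (Set.finite_lt_nat N).subset fun x hx => by
      by_contra hc
      exact hp ((h x (by simpa using hc)).1 hx)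
    refine ⟨Or.inl h1, ?_⟩
    simp only [hp, iff_false, Set.not_infinite]
    exact h1

theorem R_sub {X : Set ℕ} (hX : X ∈ R) : X ∈ FC := by
  obtain ⟨S, b, rfl⟩ := hX
  refine (const_mem (N := S.sup id) (p := Xor' (b = true) (Odd S.card)) fun x hx => ?_).1
  have h1 : S.filter (fun s => s ≤ x) = S := by
    refine Finset.filter_true_of_mem fun s hs => ?_
    have : s ≤ S.sup id := Finset.le_sup (f := id) hs
    omega
  show Xor' (b = true) (Odd (S.filter (fun s => s ≤ x)).card) ↔ _
  rw [h1]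

theorem FC_const {X : Set ℕ} (hX : X ∈ FC) : ∃ N, ∀ x, N ≤ x → (x ∈ X ↔ N ∈ X) := by
  rcases hX with h | h
  · obtain ⟨N, hN⟩ := h.bddAbove
    refine ⟨N + 1, fun x hx => ?_⟩
    have h1 : x ∉ X := fun h => by have := hN h; omega
    have h2 : N + 1 ∉ X := fun h => by have := hN h; omega
    simp [h1, h2]
  · obtain ⟨N, hN⟩ := h.bddAbove
    refine ⟨N + 1, fun x hx => ?_⟩
    have h1 : x ∈ X := by
      by_contra h
      have := hN (show x ∈ Xᶜ from h)
      omega
    have h2 : N + 1 ∈ X := by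
      by_contra h
      have := hN (show N + 1 ∈ Xᶜ from h)
      omega
    simp [h1, h2]

theorem xor_iff (p q : Prop) : Xor' p q ↔ (p ↔ ¬ q) := by
  show (p ∧ ¬ q ∨ q ∧ ¬ p) ↔ _
  tauto

/-- the jumps of `X` -/
noncomputable def jmp (X : Set ℕ) (N : ℕ) : Finset ℕ := by
  classical
  exact (Finset.range (N + 1)).filter (fun x => 1 ≤ x ∧ ¬ (x ∈ X ↔ x - 1 ∈ X))

theorem mem_jmp {X : Set ℕ} {N x : ℕ} :
    x ∈ jmp X N ↔ x < N + 1 ∧ 1 ≤ x ∧ ¬ (x ∈ X ↔ x - 1 ∈ X) := by
  classical
  unfold jmp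
  rw [Finset.mem_filter, Finset.mem_range]

theorem jmp_spec {X : Set ℕ} {N : ℕ} (hN : ∀ x, N ≤ x → (x ∈ X ↔ N ∈ X)) (x : ℕ) :
    x ∈ X ↔ (0 ∈ X ↔ ¬ Odd ((jmp X N).filter (fun s => s ≤ x)).card) := by
  induction x with
  | zero =>
    have h1 : (jmp X N).filter (fun s => s ≤ 0) = ∅ := by
      refine Finset.filter_eq_empty_iff.2 fun s hs => ?_
      rw [mem_jmp] at hs
      omega
    rw [h1]
    simp
  | succ x ih =>
    by_cases h : x + 1 ∈ jmp X N
    · have h1 : (jmp X N).filter (fun s => s ≤ x + 1) =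
          insert (x + 1) ((jmp X N).filter (fun s => s ≤ x)) := by
        ext s
        rw [Finset.mem_filter, Finset.mem_insert, Finset.mem_filter]
        constructor
        · rintro ⟨h2, h3⟩
          by_cases h4 : s = x + 1
          · exact Or.inl h4
          · exact Or.inr ⟨h2, by omega⟩
        · rintro (h2 | ⟨h2, h3⟩)
          · rw [h2]; exact ⟨h, le_refl _⟩
          · exact ⟨h2, by omega⟩
      rw [h1, Finset.card_insert_of_notMem (by rw [Finset.mem_filter]; omega), Nat.odd_add_one]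
      rw [mem_jmp, Nat.add_sub_cancel] at h
      have h2 := h.2.2
      rw [ih] at h2
      tauto
    · have h1 : (jmp X N).filter (fun s => s ≤ x + 1) = (jmp X N).filter (fun s => s ≤ x) := by
        ext s
        rw [Finset.mem_filter, Finset.mem_filter]
        constructor
        · rintro ⟨h2, h3⟩
          refine ⟨h2, ?_⟩
          by_contra h4
          have : s = x + 1 := by omega
          rw [this] at h2
          exact h h2
        · rintro ⟨h2, h3⟩
          exact ⟨h2, by omega⟩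
      rw [h1, ← ih]
      by_cases h3 : x + 1 < N + 1
      · rw [mem_jmp, Nat.add_sub_cancel] at h
        by_contra h4
        exact h ⟨h3, by omega, h4⟩
      · rw [hN (x + 1) (by omega), hN x (by omega)]

theorem sub_R {X : Set ℕ} (hX : X ∈ FC) : X ∈ R := by
  classical
  obtain ⟨N, hN⟩ := FC_const hX
  refine ⟨jmp X N, decide (0 ∈ X), ?_⟩
  ext x
  rw [Set.mem_setOf_eq, xor_iff, decide_eq_true_eq]
  exact jmp_spec hN x

theorem range_R : Set.range (fun X : FC => (X : Set ℕ)) = R := by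
  ext X
  constructor
  · rintro ⟨Y, rfl⟩
    exact sub_R Y.2
  · intro h
    exact ⟨⟨X, R_sub h⟩, rfl⟩

theorem image_finite {ψ : FC → Set ℕ} (hinj : Function.Injective ψ)
    (hsup : ∀ a b, ψ (a ⊔ b) = ψ a ∪ ψ b) (hrange : Set.range ψ = R) {X : FC}
    (hX : (X : Set ℕ).Finite) : (ψ X).Finite := by
  by_contra hc
  have h1 : {Y : FC | (Y : Set ℕ) ⊆ X}.Finite := by
    refine Set.Finite.of_finite_image (f := fun Y : FC => (Y : Set ℕ)) ?_
      Subtype.val_injective.injOn
    refine hX.finite_subsets.subset ?_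
    rintro _ ⟨Y, hY, rfl⟩
    exact hY
  have h2 := h1.image ψ
  have h3 : ∀ z ∈ ψ X, ({z} : Set ℕ) ∈ ψ '' {Y : FC | (Y : Set ℕ) ⊆ X} := by
    intro z hz
    have h4 : ({z} : Set ℕ) ∈ Set.range ψ := by
      rw [hrange]
      exact sub_R (Or.inl (Set.finite_singleton z))
    obtain ⟨Y, hY⟩ := h4
    refine ⟨Y, ?_, hY⟩
    have h5 : ψ (Y ⊔ X) = ψ X := by
      rw [hsup, hY]
      exact Set.union_eq_self_of_subset_left (Set.singleton_subset_iff.2 hz)
    have h6 := hinj h5
    have h7 : (Y : Set ℕ) ∪ (X : Set ℕ) = (X : Set ℕ) := congrArg (fun Z : FC => (Z : Set ℕ)) h6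
    show (Y : Set ℕ) ⊆ X
    rw [← h7]
    exact Set.subset_union_left
  have h4 : ((fun z : ℕ => ({z} : Set ℕ)) '' (ψ X)).Finite := h2.subset (by
    rintro _ ⟨z, hz, rfl⟩
    exact h3 z hz)
  exact hc (h4.of_finite_image (Set.singleton_injective.injOn))

theorem image_infinite {ψ : FC → Set ℕ} (hinj : Function.Injective ψ)
    (hsup : ∀ a b, ψ (a ⊔ b) = ψ a ∪ ψ b) (hcompl : ∀ a, ψ aᶜ = (ψ a)ᶜ)
    (hrange : Set.range ψ = R) (X : FC) : (ψ X).Infinite ↔ (X : Set ℕ).Infinite := by
  constructor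
  · intro h h'
    exact h (image_finite hinj hsup hrange h')
  · intro h h'
    have h1 : ((Xᶜ : FC) : Set ℕ).Finite := by
      rcases X.2 with h2 | h2
      · exact (h h2).elim
      · exact h2
    have h2 := image_finite hinj hsup hrange h1
    rw [hcompl] at h2
    have := h'.union h2
    rw [Set.union_compl_self] at this
    exact Set.infinite_univ this

theorem S_infinite_iff (i : ℕ) : (S (2 ^ i)).Infinite ↔ TS i := by
  obtain ⟨N, hN⟩ := cn_large i
  exact (const_mem (N := N) (p := TS i) fun x hx => by rw [mem_S_two_pow, hN x hx]).2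

theorem filter_large (l' : ℕ ≃ ℕ) (L : List ℕ) : ∃ N, ∀ x, N ≤ x →
    L.filter (fun s => decide (l' s ≤ x)) = L := by
  induction L with
  | nil => exact ⟨0, fun x _ => rfl⟩
  | cons s L ih =>
    obtain ⟨N, hN⟩ := ih
    refine ⟨N + l' s, fun x hx => ?_⟩
    rw [List.filter_cons, hN x (by omega), if_pos]
    simp only [decide_eq_true_eq]
    omega

end Pool.Agent.TH743.BA
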